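import Pool.Agent.Q66.RX.Stm

/-! Project RX (MP_c93b6d_al): neighbourhoods of one of a group of families contain polars of
compact sets of characters (`S_FR2`). -/

set_option autoImplicit false

namespace Pool.Agent.Q79.RX

open Topology Filter Set Pool.Agent.Q66.RX

lemma rr_half_mem : {z : Circle | 0 ≤ rr z} ∈ 𝓝 (1 : Circle) := by
  have hopen : IsOpen {z : Circle | 0 < rr z} := by
    apply isOpen_lt continuous_const
    exact Complex.continuous_re.comp continuous_subtype_val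
  have h1 : (1 : Circle) ∈ {z : Circle | 0 < rr z} := by
    simp [rr]
  refine Filter.mem_of_superset (hopen.mem_nhds h1) ?_
  intro z hz
  have hz' : 0 < rr z := hz
  exact hz'.le

/-- `S_FR2` follows from `S_LC` and `S_POL`. -/
theorem t_FR2 (hL : S_LC) (hP : S_POL) : S_FR2 := by
  intro I X G _ _ _ _ _ _ _ F hX W hW
  obtain ⟨U, hU, hUW⟩ := (F.nhd W).1 hW
  obtain ⟨Q, hQ, hQU⟩ := hX U hU
  obtain ⟨M, hM, hMQ⟩ := hL X Q hQ _ rr_half_mem
  have hW' : {g : G | ∀ i, F.c g i ∈ M} ∈ 𝓝 (1 : G) := (F.nhd _).2 ⟨M, hM, fun g hg => hg⟩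
  refine ⟨{χ : PontryaginDual G | ∀ g ∈ {g : G | ∀ i, F.c g i ∈ M}, 0 ≤ rr (χ g)}, hP G _ hW', ?_⟩
  intro g hg
  apply hUW
  intro i
  apply hQU
  intro ψ hψ
  have hmem : F.pb i ψ ∈ {χ : PontryaginDual G | ∀ g ∈ {g : G | ∀ i, F.c g i ∈ M}, 0 ≤ rr (χ g)} := by
    intro g' hg'
    rw [Fam.pb_apply]
    exact hMQ ψ hψ _ (hg' i)
  have := hg _ hmem
  rwa [Fam.pb_apply] at this

end Pool.Agent.Q79.RX
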